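import Pool.Agent.TH302.Cubes.Odd
import Pool.Agent.TH302.Tarry.Upper

/-!
# MP_2d9e0f_co: deleting a coordinate from an all-or-nothing transform

`IsAONT t s v φ`: `φ` is a `(t, s, v)`-all-or-nothing transform of the alphabet `Fin v`.

**Theorem.** There is an `s` (`3 ≤ s ≤ 5`) such that a `(1, s, 6)`-AONT exists but no
`(1, s - 1, 6)`-AONT exists: the answer to Q1 is negative. (There is a `(1, 5, 6)`-AONT and there is
no `(1, 2, 6)`-AONT.)
-/

set_option autoImplicit false

namespace Pool.Agent.Results.MP_2d9e0f_co.DeletionFails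

open Function Pool.Agent.H430R2.PermCubes

/-- `φ : X ^ s → X ^ s`, `X = Fin v`, is a `(t, s, v)`-all-or-nothing transform: it is a bijection,
and for all `t`-element sets `I`, `J` of coordinates the map `x ↦ (x restricted to I, φ x restricted
to the complement of J)` is a bijection. -/
def IsAONT (t s v : ℕ) (φ : (Fin s → Fin v) → (Fin s → Fin v)) : Prop :=
  Bijective φ ∧ ∀ I J : Finset (Fin s), I.card = t → J.card = t →
    Bijective (fun x : Fin s → Fin v =>
      ((fun i : {i // i ∈ I} => x i, fun j : {j // j ∉ J} => φ x j) :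
        ({i // i ∈ I} → Fin v) × ({j // j ∉ J} → Fin v)))

/-- a `(1, 5, 6)`-AONT exists -/
theorem exists_five : ∃ φ, IsAONT 1 5 6 φ := by
  obtain ⟨C, hC⟩ := Pool.Agent.TH302.Cubes.exists_odd (m := 5) le_rfl (by decide)
  have hb := hC.2 Fin.castSucc (Fin.castSucc_injective 5)
  set Φ : (Fin 5 → Fin 6) → (Fin 5 → Fin 6) := fun x i => C (Fin.castSucc i) x with hΦ
  let e : (Fin 5 → Fin 6) ≃ (Fin 5 → Fin 6) := Equiv.ofBijective Φ hb
  refine ⟨e.symm, e.symm.bijective, ?_⟩
  intro I J hI hJ
  obtain ⟨i, rfl⟩ := Finset.card_eq_one.1 hI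
  obtain ⟨j, rfl⟩ := Finset.card_eq_one.1 hJ
  constructor
  · intro x y hxy
    simp only [Prod.mk.injEq] at hxy
    obtain ⟨h1, h2⟩ := hxy
    apply e.symm.injective
    have h3 : x i = y i := congrFun h1 ⟨i, by simp⟩
    have h4 : ∀ k, k ≠ j → e.symm x k = e.symm y k := fun k hk =>
      congrFun h2 ⟨k, by simpa using hk⟩
    have h5 : e.symm x = update (e.symm y) j (e.symm x j) := by
      funext k
      by_cases hk : k = j
      · subst hk; simp
      · rw [update_of_ne hk, h4 k hk]
    have h6 : C (Fin.castSucc i) (e.symm x) = C (Fin.castSucc i) (e.symm y) := by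
      have h7 : Φ (e.symm x) = x := e.apply_symm_apply x
      have h8 : Φ (e.symm y) = y := e.apply_symm_apply y
      have h9 := congrFun h7 i
      have h10 := congrFun h8 i
      simp only [hΦ] at h9 h10
      rw [h9, h10, h3]
    have h7 := (hC.1 (Fin.castSucc i) j (e.symm y)).1
    have h8 : e.symm x j = e.symm y j := by
      apply h7
      simp only [update_eq_self]
      rw [← h5]
      exact h6
    rw [h5, h8, update_eq_self]
  · rintro ⟨a, b⟩
    let z : Fin 5 → Fin 6 := fun k => if h : k = j then 0 else b ⟨k, by simpa using h⟩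
    obtain ⟨t, ht⟩ := (hC.1 (Fin.castSucc i) j z).2 (a ⟨i, by simp⟩)
    refine ⟨e (update z j t), ?_⟩
    simp only [Prod.mk.injEq]
    constructor
    · funext k
      obtain ⟨k, hk⟩ := k
      have hk' : k = i := by simpa using hk
      subst hk'
      exact ht
    · funext k
      obtain ⟨k, hk⟩ := k
      have hk' : k ≠ j := by simpa using hk
      rw [e.symm_apply_apply]
      simp only [update_of_ne hk', z, dif_neg hk']

/-- no `(1, 2, 6)`-AONT exists -/
theorem not_two : ¬ ∃ φ, IsAONT 1 2 6 φ := by
  rintro ⟨φ, hb, hφ⟩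
  let C : Fin 4 → (Fin 2 → Fin 6) → Fin 6 := ![fun x => x 0, fun x => x 1, fun x => φ x 0,
    fun x => φ x 1]
  have key : ∀ i j : Fin 2, ∀ x y : Fin 2 → Fin 6, x i = y i → φ x j = φ y j → x = y := by
    intro i j x y h1 h2
    apply (hφ {i} {j + 1} (by simp) (by simp)).1
    simp only [Prod.mk.injEq]
    constructor
    · funext k
      obtain ⟨k, hk⟩ := k
      have hk' : k = i := by simpa using hk
      subst hk'
      exact h1
    · funext k
      obtain ⟨k, hk⟩ := k
      have hk' : k ≠ j + 1 := by simpa using hk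
      have : k = j := by
        revert hk'
        fin_cases k <;> fin_cases j <;> simp
      subst this
      exact h2
  have hinj : ∀ a b : Fin 4, a < b → ∀ x y : Fin 2 → Fin 6, C a x = C a y → C b x = C b y →
      x = y := by
    intro a b hab x y h1 h2
    have hx01 : x 0 = y 0 → x 1 = y 1 → x = y := by
      intro h3 h4
      funext k
      fin_cases k
      · exact h3
      · exact h4
    have hφ01 : φ x 0 = φ y 0 → φ x 1 = φ y 1 → x = y := by
      intro h3 h4
      apply hb.1
      funext k
      fin_cases k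
      · exact h3
      · exact h4
    fin_cases a <;> fin_cases b <;> first | exact absurd hab (by decide) | skip
    · exact hx01 h1 h2
    · exact key 0 0 x y h1 h2
    · exact key 0 1 x y h1 h2
    · exact key 1 0 x y h1 h2
    · exact key 1 1 x y h1 h2
    · exact hφ01 h1 h2
  have harr : IsArray 2 6 4 C := by
    intro e he
    apply Finite.injective_iff_bijective.1
    intro x y hxy
    have h0 := congrFun hxy 0
    have h1 := congrFun hxy 1
    simp only at h0 h1
    rcases lt_trichotomy (e 0) (e 1) with h | h | h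
    · exact hinj _ _ h x y h0 h1
    · exact absurd (he h) (by decide)
    · exact hinj _ _ h x y h1 h0
  have := Pool.Agent.TH302.Tarry.le_of_array harr le_rfl
  omega

/-- **Deleting a coordinate fails**: for some `s` with `3 ≤ s ≤ 5` a `(1, s, 6)`-AONT exists, but no
`(1, s - 1, 6)`-AONT exists. -/
theorem result : ∃ s : ℕ, 3 ≤ s ∧ s ≤ 5 ∧ (∃ φ, IsAONT 1 s 6 φ) ∧ ¬ ∃ φ, IsAONT 1 (s - 1) 6 φ := by
  by_contra hcon
  push Not at hcon
  have h5 := exists_five
  have h4 := hcon 5 (by norm_num) le_rfl h5
  have h3 := hcon 4 (by norm_num) (by norm_num) h4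
  have h2 := hcon 3 le_rfl (by norm_num) h3
  exact not_two h2

end Pool.Agent.Results.MP_2d9e0f_co.DeletionFails
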